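import Pool.Agent.Helper70.BI.HH.StHD

/-!
# Project BI, stage 7 (H), module MVA: the deck transformation
-/

set_option autoImplicit false

open scoped Topology unitInterval
open Set

namespace Pool.Agent.Helper70.HH

private def gMVA {V : Type} [AddCommGroup V] (g : ℤ → V) : ℤ → V
  | Int.ofNat k => ∑ i ∈ Finset.range k, g (i : ℤ)
  | Int.negSucc k => -∑ i ∈ Finset.range (k + 1), g (-((i : ℤ) + 1))

private theorem gMVA_succ {V : Type} [AddCommGroup V] (g : ℤ → V) (n : ℤ) :
    gMVA g (n + 1) = gMVA g n + g n := by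
  rcases n with k | k
  · have h : (Int.ofNat k + 1 : ℤ) = Int.ofNat (k + 1) := rfl
    rw [h]
    simp only [gMVA]
    rw [Finset.sum_range_succ]
    rfl
  · rcases k with _ | k
    · have h : (Int.negSucc 0 + 1 : ℤ) = Int.ofNat 0 := rfl
      rw [h]
      simp only [gMVA]
      simp
    · have h : (Int.negSucc (k + 1) + 1 : ℤ) = Int.negSucc k := rfl
      rw [h]
      simp only [gMVA]
      rw [Finset.sum_range_succ _ (k + 1)]
      have h2 : (-(((k + 1 : ℕ) : ℤ) + 1)) = Int.negSucc (k + 1) := by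
        rw [Int.negSucc_eq]
      rw [h2]
      abel

/-- the function `Ψ` -/
private theorem psi_MVA {E V : Type} [AddCommGroup V] (sg : Equiv.Perm E) (deg : E → ℤ)
    (hd : ∀ z, deg (sg z) = deg z + 1) (φ : E → V) :
    ∃ Ψ : E → V, ∀ z, Ψ (sg z) = Ψ z + φ z := by
  refine ⟨fun z => gMVA (fun n => φ ((sg ^ n) ((sg ^ (-deg z)) z))) (deg z), fun z => ?_⟩
  have h1 : (sg ^ (-deg (sg z))) (sg z) = (sg ^ (-deg z)) z := by
    rw [hd z]
    have : (sg ^ (-(deg z + 1))) (sg z) = (sg ^ (-(deg z + 1)) * sg) z := rfl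
    rw [this]
    congr 1
    rw [← zpow_add_one]
    congr 1
    ring
  have h2 : (sg ^ deg z) ((sg ^ (-deg z)) z) = z := by
    have : (sg ^ deg z) ((sg ^ (-deg z)) z) = (sg ^ deg z * sg ^ (-deg z)) z := rfl
    rw [this, ← zpow_add, add_neg_cancel, zpow_zero]
    rfl
  show gMVA (fun n => φ ((sg ^ n) ((sg ^ (-deg (sg z))) (sg z)))) (deg (sg z)) = _
  rw [h1, hd z, gMVA_succ]
  congr 1
  show φ ((sg ^ deg z) ((sg ^ (-deg z)) z)) = φ z
  rw [h2]

/-- the square `(t, s) ↦ D (s, e t)` -/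
private def pMVA {X E : Type} [TopologicalSpace X] [TopologicalSpace E] (D : C(I × E, X))
    (e : C(I, E)) : C(I × I, X) :=
  ⟨fun z => D (z.2, e z.1), by fun_prop⟩

private theorem const_MVA {X : Type} [TopologicalSpace X] {V : Type} [AddCommGroup V]
    {a : C(I × I, X) → V} {v : C(I, X) → V} (h : IsCoc X V a v) (S : C(I × I, X)) (c : I → X)
    (hS : ∀ z, S z = c z.2) :
    a S = v (ContinuousMap.const I (c 0)) - v (ContinuousMap.const I (c 1)) := by
  have h1 : lowS S = S := by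
    ext z
    show S (hl z.1, z.2) = S z
    rw [hS, hS]
  have h2 : upS S = S := by
    ext z
    show S (hr z.1, z.2) = S z
    rw [hS, hS]
  have h3 : S.comp topm = ContinuousMap.const I (c 1) := by
    ext x
    show S (x, 1) = c 1
    rw [hS]
  have h4 : S.comp botm = ContinuousMap.const I (c 0) := by
    ext x
    show S (x, 0) = c 0
    rw [hS]
  have h5 := h.sdh S
  rw [h1, h2, h3, h4] at h5
  have h6 : a S - a S = a S + v (ContinuousMap.const I (c 1)) -
      v (ContinuousMap.const I (c 0)) := by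
    calc a S - a S = (a S + a S + v (ContinuousMap.const I (c 1)) -
      v (ContinuousMap.const I (c 0))) - a S := by rw [← h5]
      _ = _ := by abel
  rw [sub_self] at h6
  have h7 : a S = v (ContinuousMap.const I (c 0)) - v (ContinuousMap.const I (c 1)) := by
    have : a S - (v (ContinuousMap.const I (c 0)) - v (ContinuousMap.const I (c 1))) = 0 := by
      rw [h6]; abel
    exact sub_eq_zero.1 this
  exact h7

private theorem cube_MVA {X E : Type} [TopologicalSpace X] [TopologicalSpace E] {V : Type}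
    [AddCommGroup V] {a : C(I × I, X) → V} {v : C(I, X) → V} (h : IsCoc X V a v) (Q : C(E, X))
    (D : C(I × E, X)) (hD : ∀ z, D (0, z) = Q z) (S : C(I × I, E)) (S₀ S₁ : C(I × I, X))
    (h0 : ∀ z, S₀ z = Q (S z)) (h1 : ∀ z, S₁ z = D (1, S z)) :
    a S₀ - a S₁ = a (pMVA D (S.comp botm)) + a (pMVA D (S.comp rigm)) -
      a (pMVA D (S.comp lefm)) - a (pMVA D (S.comp topm)) := by
  let C : C(I × (I × I), X) := ⟨fun z => D (z.2.2, S (z.1, z.2.1)), by fun_prop⟩
  have e1 : C.comp (fx 1) = pMVA D (S.comp rigm) := by ext z; rfl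
  have e2 : C.comp (fx 0) = pMVA D (S.comp lefm) := by ext z; rfl
  have e3 : C.comp (fy 1) = pMVA D (S.comp topm) := by ext z; rfl
  have e4 : C.comp (fy 0) = pMVA D (S.comp botm) := by ext z; rfl
  have e5 : C.comp (fz 1) = S₁ := by
    ext z
    show D (1, S (z.1, z.2)) = S₁ z
    rw [h1]
  have e6 : C.comp (fz 0) = S₀ := by
    ext z
    show D (0, S (z.1, z.2)) = S₀ z
    rw [h0, hD]
  have h2 := h.cube C
  rw [e1, e2, e3, e4, e5, e6] at h2
  have h3 : a S₀ - a S₁ - (a (pMVA D (S.comp botm)) + a (pMVA D (S.comp rigm)) -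
      a (pMVA D (S.comp lefm)) - a (pMVA D (S.comp topm))) =
      -(a (pMVA D (S.comp rigm)) - a (pMVA D (S.comp lefm)) -
        (a (pMVA D (S.comp topm)) - a (pMVA D (S.comp botm))) + (a S₁ - a S₀)) := by
    abel
  rw [h2, neg_zero] at h3
  exact sub_eq_zero.1 h3

theorem m_MVA : StMVA := by
  intro X E _ _ V _ a v hc hsc Q D τ deg hD hQ hD1 hdeg
  -- the image of a path under the deck transformation
  let tp : C(I, E) → C(I, E) := fun e => ⟨fun t => τ (e t), by fun_prop⟩
  let θ : C(I, E) → V := fun e => a (pMVA D (tp e)) - a (pMVA D e)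
  have hθ1 : ∀ S : C(I × I, E),
      θ (S.comp botm) + θ (S.comp rigm) - θ (S.comp lefm) - θ (S.comp topm) = 0 := by
    intro S
    let S₀ : C(I × I, X) := ⟨fun z => Q (S z), by fun_prop⟩
    let S₁ : C(I × I, X) := ⟨fun z => D (1, S z), by fun_prop⟩
    let S' : C(I × I, E) := ⟨fun z => τ (S z), by fun_prop⟩
    have h1 := cube_MVA hc Q D hD S S₀ S₁ (fun _ => rfl) (fun _ => rfl)
    have h2 := cube_MVA hc Q D hD S' S₀ S₁ (fun z => (hQ (S z)).symm)
      (fun z => (hD1 (S z)).symm)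
    have e1 : S'.comp botm = tp (S.comp botm) := rfl
    have e2 : S'.comp rigm = tp (S.comp rigm) := rfl
    have e3 : S'.comp lefm = tp (S.comp lefm) := rfl
    have e4 : S'.comp topm = tp (S.comp topm) := rfl
    rw [e1, e2, e3, e4] at h2
    have h3 : (a (pMVA D (tp (S.comp botm))) + a (pMVA D (tp (S.comp rigm))) -
      a (pMVA D (tp (S.comp lefm))) - a (pMVA D (tp (S.comp topm)))) -
      (a (pMVA D (S.comp botm)) + a (pMVA D (S.comp rigm)) -
      a (pMVA D (S.comp lefm)) - a (pMVA D (S.comp topm))) = 0 := by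
      rw [← h1, ← h2, sub_self]
    show (a (pMVA D (tp (S.comp botm))) - a (pMVA D (S.comp botm))) +
      (a (pMVA D (tp (S.comp rigm))) - a (pMVA D (S.comp rigm))) -
      (a (pMVA D (tp (S.comp lefm))) - a (pMVA D (S.comp lefm))) -
      (a (pMVA D (tp (S.comp topm))) - a (pMVA D (S.comp topm))) = 0
    rw [← h3]
    abel
  have hθ2 : ∀ x : E, θ (ContinuousMap.const I x) = 0 := by
    intro x
    show a (pMVA D (tp (ContinuousMap.const I x))) - a (pMVA D (ContinuousMap.const I x)) = 0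
    rw [const_MVA hc (pMVA D (tp (ContinuousMap.const I x))) (fun s => D (s, τ x))
      (fun z => rfl), const_MVA hc (pMVA D (ContinuousMap.const I x)) (fun s => D (s, x))
      (fun z => rfl)]
    rw [hD, hD, hQ, hD1, sub_self]
  obtain ⟨φ, hφ⟩ := hsc V θ hθ1 hθ2
  obtain ⟨Ψ, hΨ⟩ := psi_MVA τ.toEquiv deg hdeg φ
  refine ⟨fun e => a (pMVA D e) - (Ψ (e 1) - Ψ (e 0)), ?_, ?_⟩
  · intro e e' he
    have h1 : e' = tp e := by
      ext t
      exact he t
    have h2 := hφ e
    have h3 : Ψ (e' 1) = Ψ (e 1) + φ (e 1) := by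
      rw [he 1]
      exact hΨ (e 1)
    have h4 : Ψ (e' 0) = Ψ (e 0) + φ (e 0) := by
      rw [he 0]
      exact hΨ (e 0)
    show a (pMVA D e') - (Ψ (e' 1) - Ψ (e' 0)) = a (pMVA D e) - (Ψ (e 1) - Ψ (e 0))
    rw [h3, h4, h1]
    have h5 : a (pMVA D (tp e)) = φ (e 1) - φ (e 0) + a (pMVA D e) := by
      rw [← h2]
      show a (pMVA D (tp e)) = a (pMVA D (tp e)) - a (pMVA D e) + a (pMVA D e)
      abel
    rw [h5]
    abel
  · intro S S₀ S₁ h0 h1
    rw [cube_MVA hc Q D hD S S₀ S₁ h0 h1]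
    show _ = (a (pMVA D (S.comp botm)) - (Ψ (S (1, 0)) - Ψ (S (0, 0)))) +
      (a (pMVA D (S.comp rigm)) - (Ψ (S (1, 1)) - Ψ (S (1, 0)))) -
      (a (pMVA D (S.comp lefm)) - (Ψ (S (0, 1)) - Ψ (S (0, 0)))) -
      (a (pMVA D (S.comp topm)) - (Ψ (S (1, 1)) - Ψ (S (0, 1))))
    abel

end Pool.Agent.Helper70.HH
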